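import Pool.Agent.H26.EW.TargetsT

/-!
# Row CRP of the ladders (MP_e21eee_nt): the positions
-/

set_option autoImplicit false

open Finset MeasureTheory

namespace Pool.Agent.H38.EW

open Pool.Agent.H24.CL Pool.Agent.H24.LV Pool.Agent.H26.ES Pool.Agent.H26.EW

theorem modEq_prod (S : Finset ℕ) (hS : ∀ p ∈ S, p.Prime) (a b : ℕ)
    (h : ∀ p ∈ S, a % p = b % p) : a % (∏ p ∈ S, p) = b % (∏ p ∈ S, p) := by
  have key : ∀ a b : ℕ, a ≤ b → (∀ p ∈ S, a % p = b % p) → a ≡ b [MOD ∏ p ∈ S, p] := by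
    intro a b hab h
    rw [Nat.modEq_iff_dvd' hab]
    refine Finset.prod_primes_dvd _ (fun p hp => (hS p hp).prime) fun p hp => ?_
    rw [← Nat.modEq_iff_dvd' hab]
    exact h p hp
  rcases le_total a b with hab | hab
  · exact key a b hab h
  · exact (key b a hab fun p hp => (h p hp).symm).symm

theorem cr_ex (Q : Finset ℕ) (hQ : ∀ p ∈ Q, p.Prime) (x : Pos (pp Q)) :
    ∃ n : ℕ, n < DS Q ∧ ∀ i : Pool.Agent.H26.EW.Id Q, n % i.1 = (x i : ℕ) := by
  have hD : 0 < DS Q := Finset.prod_pos fun p hp => (hQ p hp).pos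
  obtain ⟨n, hn⟩ := Nat.chineseRemainderOfFinset (fun i : Pool.Agent.H26.EW.Id Q => (x i : ℕ))
    (fun i => i.1) Finset.univ (fun i _ => (hQ i.1 i.2).ne_zero) (by
      intro i _ j _ hij
      exact (Nat.coprime_primes (hQ i.1 i.2) (hQ j.1 j.2)).2 fun h => hij (Subtype.ext h))
  refine ⟨n % DS Q, Nat.mod_lt _ hD, fun i => ?_⟩
  have h1 : n % i.1 = (x i : ℕ) % i.1 := hn i (Finset.mem_univ _)
  have h2 : i.1 ∣ DS Q := Finset.dvd_prod_of_mem (fun p => p) i.2
  rw [Nat.mod_mod_of_dvd _ h2, h1]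
  exact Nat.mod_eq_of_lt (x i).isLt

theorem cr_spec (Q : Finset ℕ) (hQ : ∀ p ∈ Q, p.Prime) (x : Pos (pp Q)) :
    cr Q x < DS Q ∧ ∀ i : Pool.Agent.H26.EW.Id Q, cr Q x % i.1 = (x i : ℕ) := by
  unfold cr
  rw [dif_pos (cr_ex Q hQ x)]
  exact Classical.choose_spec (cr_ex Q hQ x)

/-- CRP. -/
theorem pf_CRP : T_CRP := by
  intro Q hQ
  have hD : 0 < DS Q := Finset.prod_pos fun p hp => (hQ p hp).pos
  have hsp := cr_spec Q hQ
  have hinj : Function.Injective (cr Q) := by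
    intro x x' h
    funext i
    refine Fin.ext ?_
    rw [← (hsp x).2 i, ← (hsp x').2 i, h]
  have huni : ∀ n < DS Q, ∀ x : Pos (pp Q), (∀ i : Pool.Agent.H26.EW.Id Q, n % i.1 = (x i : ℕ)) →
      cr Q x = n := by
    intro n hn x hx
    have h := modEq_prod Q hQ (cr Q x) n fun p hp => by
      rw [(hsp x).2 ⟨p, hp⟩, hx ⟨p, hp⟩]
    have h2 : cr Q x % DS Q = n % DS Q := h
    rwa [Nat.mod_eq_of_lt (hsp x).1, Nat.mod_eq_of_lt hn] at h2
  have hsur : ∀ n < DS Q, ∃ x : Pos (pp Q), cr Q x = n := by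
    intro n hn
    exact ⟨fun i => ⟨n % i.1, Nat.mod_lt _ (hQ i.1 i.2).pos⟩, huni n hn _ fun i => rfl⟩
  refine ⟨hsp, hinj, hsur, ?_, ?_⟩
  · intro x i r
    have he : DS Q / i.1 = ∏ p ∈ Q.erase i.1, p := by
      unfold DS
      rw [← Finset.mul_prod_erase Q (fun p => p) i.2]
      exact Nat.mul_div_cancel_left _ (hQ i.1 i.2).pos
    rw [he]
    refine modEq_prod _ (fun p hp => hQ p (Finset.mem_of_mem_erase hp)) _ _ fun p hp => ?_
    have hpQ := Finset.mem_of_mem_erase hp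
    have hne : (⟨p, hpQ⟩ : Pool.Agent.H26.EW.Id Q) ≠ i := by
      intro h
      exact Finset.ne_of_mem_erase hp (congrArg Subtype.val h)
    have h1 := (hsp (Function.update x i r)).2 ⟨p, hpQ⟩
    have h2 := (hsp x).2 ⟨p, hpQ⟩
    rw [Function.update_of_ne hne] at h1
    exact h1.trans h2.symm
  · intro F
    have him : Finset.univ.image (cr Q) = range (DS Q) := by
      ext n
      rw [Finset.mem_image, Finset.mem_range]
      constructor
      · rintro ⟨x, -, rfl⟩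
        exact (hsp x).1
      · intro hn
        obtain ⟨x, hx⟩ := hsur n hn
        exact ⟨x, Finset.mem_univ _, hx⟩
    have hc : Fintype.card (Pos (pp Q)) = DS Q := by
      rw [← Finset.card_univ, ← Finset.card_image_of_injective _ hinj, him, Finset.card_range]
    unfold avP
    rw [hc, one_div, ← him, Finset.sum_image fun a _ b _ hab => hinj hab]

end Pool.Agent.H38.EW
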