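import Pool.Agent.H26.EW.TargetsT
import Pool.Agent.H75.CLV.MP

/-!
# Row EDG of the ladders (MP_e21eee_nt): the mass of the steps
-/

set_option autoImplicit false

open Finset MeasureTheory

namespace Pool.Agent.H38.EW

open Pool.Agent.H24.CL Pool.Agent.H24.LV Pool.Agent.H26.ES Pool.Agent.H26.EW

/-- the average of a function of one residue -/
theorem avP_coord {ι : Type} [Fintype ι] [DecidableEq ι] {p : ι → ℕ} (hp : ∀ i, 0 < p i) (i : ι)
    (f : Fin (p i) → ℝ) : avP (fun s : Pos p => f (s i)) = (p i : ℝ)⁻¹ * ∑ r, f r := by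
  have hpi : (0 : ℝ) < p i := by exact_mod_cast hp i
  have hne : Nonempty (Pos p) := ⟨fun i => ⟨0, hp i⟩⟩
  have hc : (0 : ℝ) < (Fintype.card (Pos p) : ℝ) := by exact_mod_cast Fintype.card_pos
  unfold avP
  have h1 : ∑ x : Pos p, ∑ r : Fin (p i), f r = ∑ x : Pos p, ∑ _r : Fin (p i), f (x i) := by
    rw [← Finset.sum_product', ← Finset.sum_product', Finset.univ_product_univ]
    let e : (Pos p × Fin (p i)) ≃ (Pos p × Fin (p i)) :=
      { toFun := fun a => (Function.update a.1 i a.2, a.1 i)
        invFun := fun a => (Function.update a.1 i a.2, a.1 i)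
        left_inv := by
          intro a
          ext1
          · simp
          · simp
        right_inv := by
          intro a
          ext1
          · simp
          · simp }
    refine Fintype.sum_equiv e (fun a => f a.2) (fun a => f (a.1 i)) (fun a => ?_)
    show f a.2 = f (Function.update a.1 i a.2 i)
    rw [Function.update_self]
  rw [Finset.sum_const, Finset.card_univ, nsmul_eq_mul] at h1
  have h2 : ∀ x : Pos p, ∑ _r : Fin (p i), f (x i) = (p i : ℝ) * f (x i) := by
    intro x
    rw [Finset.sum_const, Finset.card_univ, Fintype.card_fin, nsmul_eq_mul]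
  rw [Finset.sum_congr rfl (fun x _ => h2 x), ← Finset.mul_sum] at h1
  field_simp
  linarith

theorem sum_div (g : ℕ → ℝ) (E i : ℕ) (hE : 0 < E) :
    ∑ n ∈ range (E * i), g (n / E) = (E : ℝ) * ∑ y ∈ range i, g y := by
  induction i with
  | zero => simp
  | succ i ih =>
    rw [Nat.mul_succ, Finset.sum_range_add, ih, Finset.sum_range_succ, mul_add]
    congr 1
    have : ∀ x ∈ range E, g ((E * i + x) / E) = g i := by
      intro x hx
      rw [Nat.mul_add_div hE, Nat.div_eq_of_lt (Finset.mem_range.1 hx), add_zero]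
    rw [Finset.sum_congr rfl this, Finset.sum_const, Finset.card_range, nsmul_eq_mul]

open Classical in
/-- EDG. -/
theorem pf_EDG (hCO : L_CO) (h1 : T_CRP) : T_EDG := by
  intro k Q V Ge Gd P m τ Ω ρ σ hD hσ hden hmass i
  obtain ⟨c1, c2, -, c4, c5⟩ := h1 Q fun p hp => (hD.pr p hp).1
  have hi0 : 0 < i.1 := (hD.pr i.1 i.2).1.pos
  have hiR : (0 : ℝ) < (i.1 : ℝ) := by exact_mod_cast hi0
  have hD0 : 0 < DS Q := Finset.prod_pos fun p hp => (hD.pr p hp).1.pos
  have hdvd : i.1 ∣ DS Q := Finset.dvd_prod_of_mem (fun p => p) i.2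
  set E : ℕ := DS Q / i.1 with hE
  have hiE : i.1 * E = DS Q := Nat.mul_div_cancel' hdvd
  have hE0 : 0 < E := Nat.div_pos (Nat.le_of_dvd hD0 hdvd) hi0
  set A : ℕ → Set (X k) := fun y => {a | a ∈ Gd i.1 y ∧ phi i.1 y a ∈ V} with hA
  have hAm : ∀ y, MeasurableSet (A y) := fun y => (hD.mG i.1 i.2 y).inter
    ((Pool.Agent.H75.CLV.pf_MP k i.1 y hi0).1.measurable hD.mV)
  have L1 : ∀ (x : Pos (pp Q)) (b : X k), b ∈ (WT Q V Ge Gd m 0).Gd i x ↔
      phi E (cr Q x % E) b ∈ A (cr Q x / E) := by
    intro x b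
    have e1 : phi i.1 (cr Q x / E) (phi E (cr Q x % E) b) = phi (DS Q) (cr Q x) b := by
      rw [hCO.1, hiE, Nat.mod_add_div]
    show (phi (DS Q) (cr Q x) b ∈ V ∧ phi E (cr Q x % E) b ∈ Gd i.1 (cr Q x / E)) ↔
      (phi E (cr Q x % E) b ∈ Gd i.1 (cr Q x / E) ∧
        phi i.1 (cr Q x / E) (phi E (cr Q x % E) b) ∈ V)
    rw [e1]
    exact and_comm
  have L2 : ∀ (x s : Pos (pp Q)), volume.real {b : X k | Wk (WT Q V Ge Gd m 0) [i] x s b} =
      volume.real (A (cr Q x / E) ∩ A (cr Q (Function.update x i (s i)) / E)) := by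
    intro x s
    have mp := (Pool.Agent.H75.CLV.pf_MP k E (cr Q x % E) hE0).2.2
    have hset : {b : X k | Wk (WT Q V Ge Gd m 0) [i] x s b} =
        (phi E (cr Q x % E) : X k → X k) ⁻¹'
          (A (cr Q x / E) ∩ A (cr Q (Function.update x i (s i)) / E)) := by
      ext b
      show (b ∈ (WT Q V Ge Gd m 0).Gd i x ∧
          b ∈ (WT Q V Ge Gd m 0).Gd i (Function.update x i (s i)) ∧
          b ∈ (WT Q V Ge Gd m 0).V (Function.update x i (s i))) ↔
        (phi E (cr Q x % E) b ∈ A (cr Q x / E) ∧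
          phi E (cr Q x % E) b ∈ A (cr Q (Function.update x i (s i)) / E))
      rw [L1 x b, L1 (Function.update x i (s i)) b]
      have e2 : cr Q (Function.update x i (s i)) % E = cr Q x % E := c4 x i (s i)
      rw [e2]
      constructor
      · rintro ⟨h2, h3, -⟩
        exact ⟨h2, h3⟩
      · rintro ⟨h2, h3⟩
        refine ⟨h2, h3, ?_⟩
        have h4 : b ∈ (WT Q V Ge Gd m 0).Gd i (Function.update x i (s i)) := by
          rw [L1, e2]
          exact h3
        exact h4.1
    rw [hset]
    show (volume _).toReal = (volume _).toReal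
    rw [mp.measure_preimage ((hAm _).inter (hAm _)).nullMeasurableSet]
  set g : ℕ → ℝ := fun y => (i.1 : ℝ)⁻¹ * ∑ y' ∈ range i.1, volume.real (A y ∩ A y') with hg
  have hlt : ∀ x : Pos (pp Q), cr Q x / E < i.1 := by
    intro x
    rw [Nat.div_lt_iff_lt_mul hE0, hiE]
    exact (c1 x).1
  have L3 : ∀ x : Pos (pp Q), (avP fun s : Pos (pp Q) =>
      volume.real {b : X k | Wk (WT Q V Ge Gd m 0) [i] x s b}) = g (cr Q x / E) := by
    intro x
    simp_rw [L2]
    have hp : ∀ j : Pool.Agent.H26.EW.Id Q, 0 < pp Q j := fun j => (hD.pr j.1 j.2).1.pos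
    rw [avP_coord hp i (fun r => volume.real (A (cr Q x / E) ∩
      A (cr Q (Function.update x i r) / E)))]
    rw [hg]
    show (i.1 : ℝ)⁻¹ * _ = (i.1 : ℝ)⁻¹ * _
    congr 1
    let φ : Fin i.1 → Fin i.1 := fun r => ⟨cr Q (Function.update x i r) / E, hlt _⟩
    have hφ : Function.Injective φ := by
      intro r r' h
      have h2 : cr Q (Function.update x i r) / E = cr Q (Function.update x i r') / E :=
        congrArg Fin.val h
      have h3 : cr Q (Function.update x i r) = cr Q (Function.update x i r') := by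
        rw [← Nat.mod_add_div (cr Q (Function.update x i r)) E,
          ← Nat.mod_add_div (cr Q (Function.update x i r')) E, h2]
        have e2 : cr Q (Function.update x i r) % E = cr Q x % E := c4 x i r
        have e3 : cr Q (Function.update x i r') % E = cr Q x % E := c4 x i r'
        rw [e2, e3]
      have h4 := c2 h3
      have h5 := congrFun h4 i
      rwa [Function.update_self, Function.update_self] at h5
    have hbij : Function.Bijective φ := Finite.injective_iff_bijective.1 hφ
    rw [← Fin.sum_univ_eq_sum_range (fun y' => volume.real (A (cr Q x / E) ∩ A y')) i.1]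
    exact Fintype.sum_bijective φ hbij _ _ fun r => rfl
  have L4 : (avP fun x : Pos (pp Q) => g (cr Q x / E)) = (i.1 : ℝ)⁻¹ * ∑ y ∈ range i.1, g y := by
    rw [c5 fun n => g (n / E), ← hiE, mul_comm i.1 E, sum_div g E i.1 hE0]
    have hER : (0 : ℝ) < (E : ℝ) := by exact_mod_cast hE0
    push_cast
    field_simp
  have L5 : ∀ y ∈ range i.1, σ * volume.real (A y) ≤ g y := by
    intro y hy
    have hind : ∀ y', volume.real (A y ∩ A y') = ∫ a in A y, (A y').indicator (fun _ => (1 : ℝ)) a := by
      intro y'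
      rw [setIntegral_indicator (hAm y')]
      simp [Measure.real]
    have hint : ∀ y' ∈ range i.1, Integrable ((A y').indicator (fun _ => (1 : ℝ)))
        (volume.restrict (A y)) := fun y' _ =>
      (integrable_const (1 : ℝ)).indicator (hAm y')
    have hs : ∑ y' ∈ range i.1, volume.real (A y ∩ A y') =
        ∫ a in A y, ∑ y' ∈ range i.1, (A y').indicator (fun _ => (1 : ℝ)) a := by
      rw [integral_finsetSum _ hint]
      exact Finset.sum_congr rfl fun y' _ => hind y'
    have hle : σ * i.1 * volume.real (A y) ≤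
        ∫ a in A y, ∑ y' ∈ range i.1, (A y').indicator (fun _ => (1 : ℝ)) a := by
      rw [mul_comm (σ * (i.1 : ℝ)), ← smul_eq_mul]
      refine setIntegral_ge_of_const_le (hAm y) (measure_ne_top _ _) ?_
        (integrable_finsetSum _ hint)
      intro a ha
      have h2 := hden i.1 i.2 a (hD.sub i.1 i.2 y ha.1)
      refine h2.trans (le_of_eq ?_)
      rw [Finset.card_filter]
      push_cast
      refine Finset.sum_congr rfl fun y' _ => ?_
      by_cases h : a ∈ A y'
      · rw [Set.indicator_of_mem h]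
        exact if_pos h
      · rw [Set.indicator_of_notMem h]
        exact if_neg h
    rw [← hs] at hle
    rw [hg]
    show σ * volume.real (A y) ≤ (i.1 : ℝ)⁻¹ * ∑ y' ∈ range i.1, volume.real (A y ∩ A y')
    rw [← div_eq_inv_mul, le_div_iff₀ hiR]
    calc σ * volume.real (A y) * i.1 = σ * i.1 * volume.real (A y) := by ring
      _ ≤ _ := hle
  have hMT : MT Q V Ge Gd m [i] = (i.1 : ℝ) ^ (KN k - k) *
      ((i.1 : ℝ)⁻¹ * ∑ y ∈ range i.1, g y) := by
    unfold MT
    simp_rw [L3]
    rw [L4]
    congr 1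
    unfold Nl
    simp only [List.map_cons, List.map_nil, List.prod_cons, List.prod_nil, mul_one]
    rfl
  rw [hMT]
  have hN : (0 : ℝ) ≤ (i.1 : ℝ) ^ (KN k - k) := by positivity
  have h2 := hmass i.1 i.2
  have h3 : ∑ y ∈ range i.1, σ * volume.real (A y) ≤ ∑ y ∈ range i.1, g y :=
    Finset.sum_le_sum L5
  rw [← Finset.mul_sum] at h3
  calc σ * ρ * Ω = σ * (ρ * Ω) := by ring
    _ ≤ σ * ((i.1 : ℝ) ^ (KN k - k) * ((1 / (i.1 : ℝ)) * ∑ y ∈ range i.1,
        volume.real (A y))) := mul_le_mul_of_nonneg_left h2 hσ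
    _ = (i.1 : ℝ) ^ (KN k - k) * ((i.1 : ℝ)⁻¹ * (σ * ∑ y ∈ range i.1,
        volume.real (A y))) := by
        rw [one_div]
        ring
    _ ≤ _ := mul_le_mul_of_nonneg_left (mul_le_mul_of_nonneg_left h3 (by positivity)) hN

end Pool.Agent.H38.EW
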