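import Pool.Agent.H26.EW.TargetsT

/-!
# Row INT of the ladders (MP_e21eee_nt): integration over the cosets
-/

set_option autoImplicit false

open Finset MeasureTheory

namespace Pool.Agent.H38.EW

open Pool.Agent.H24.CL Pool.Agent.H24.LV Pool.Agent.H26.ES Pool.Agent.H26.EW

/-- INT. -/
theorem pf_INT (hAI : L_AI) : T_INT := by
  intro k Q V Ge Gd m hQ F B hF hB
  classical
  have hne : (HF k (DS Q) k).Nonempty := by
    have hD : 0 < DS Q := Finset.prod_pos fun p hp => hQ p hp
    unfold HF
    refine Finset.Nonempty.image ?_ _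
    rw [Fintype.piFinset_nonempty]
    intro _
    exact ⟨0, Finset.mem_range.2 (pow_pos hD _)⟩
  have key : ∀ b₀ : X k, avT (WT Q V Ge Gd m b₀) F =
      (1 / ((HF k (DS Q) k).card : ℝ)) * ∑ h ∈ HF k (DS Q) k, F (b₀ + h) := by
    intro b₀
    have hinj : Function.Injective fun h : X k => b₀ + h := fun a b hab => add_left_cancel hab
    have hT : (WT Q V Ge Gd m b₀).T = (HF k (DS Q) k).image fun h => b₀ + h := by
      unfold WT
      ext a
      simp
    unfold avT
    rw [hT, Finset.card_image_of_injective _ hinj, Finset.sum_image fun a _ b _ hab => hinj hab,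
      one_div]
  have hm : ∀ h : X k, Measurable fun b₀ : X k => F (b₀ + h) := fun h =>
    hF.comp (continuous_id.add continuous_const).measurable
  refine ⟨?_, ?_⟩
  · simp_rw [key]
    exact (Finset.measurable_sum _ fun h _ => hm h).const_mul _
  · simp_rw [key]
    rw [integral_const_mul, ← hAI k (HF k (DS Q) k) F B hne hF hB]

end Pool.Agent.H38.EW
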